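import Mathlib

set_option autoImplicit false

open UpperHalfPlane

namespace Pool.Agent.Results.MP_e721cf_gt.FixedPointFree

/-- the two unipotent one-parameter groups; `false`: upper, `true`: lower -/
def tau (k : Bool) (s : ℝ) : Matrix.SpecialLinearGroup (Fin 2) ℝ :=
  if k then ⟨!![1, 0; s, 1], by simp [Matrix.det_fin_two_of]⟩
  else ⟨!![1, s; 0, 1], by simp [Matrix.det_fin_two_of]⟩

theorem tau_add (k : Bool) (s t : ℝ) : tau k (s + t) = tau k s * tau k t := by
  cases k <;> ext i j <;> rw [Matrix.SpecialLinearGroup.coe_mul] <;> fin_cases i <;>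
    fin_cases j <;> simp [tau, Matrix.mul_apply, Fin.sum_univ_two, add_comm]

theorem tau_zero (k : Bool) : tau k 0 = 1 := by
  cases k <;> ext i j <;> fin_cases i <;> fin_cases j <;> simp [tau]

theorem tau_neg (k : Bool) (s : ℝ) : tau k (-s) = (tau k s)⁻¹ := by
  rw [eq_inv_iff_mul_eq_one, ← tau_add, neg_add_cancel, tau_zero]

theorem coe_tau_false (s : ℝ) (z : ℍ) : ((tau false s • z : ℍ) : ℂ) = (z : ℂ) + s := by
  rw [coe_specialLinearGroup_apply]
  simp [tau]

theorem coe_tau_true (s : ℝ) (z : ℍ) : ((tau true s • z : ℍ) : ℂ) = (z : ℂ) / (s * z + 1) := by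
  rw [coe_specialLinearGroup_apply]
  simp [tau]

theorem re_tau_false (s : ℝ) (z : ℍ) : (tau false s • z : ℍ).re = z.re + s := by
  have := congrArg Complex.re (coe_tau_false s z)
  simpa using this

theorem im_tau_false (s : ℝ) (z : ℍ) : (tau false s • z : ℍ).im = z.im := by
  have := congrArg Complex.im (coe_tau_false s z)
  simpa using this

/-- the inversion `z ↦ 1 / conj z` -/
noncomputable def K (z : ℍ) : ℍ := ⟨((starRingEnd ℂ) (z : ℂ))⁻¹, by
  rw [Complex.inv_im, Complex.conj_im, Complex.normSq_conj, neg_neg]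
  exact div_pos z.im_pos (Complex.normSq_pos.2 z.ne_zero)⟩

theorem coe_K (z : ℍ) : ((K z : ℍ) : ℂ) = ((starRingEnd ℂ) (z : ℂ))⁻¹ := rfl

theorem K_K (z : ℍ) : K (K z) = z := by
  ext
  simp [coe_K]

theorem re_K (z : ℍ) : (K z).re = z.re / (z.re ^ 2 + z.im ^ 2) := by
  have := congrArg Complex.re (coe_K z)
  rw [Complex.inv_re, Complex.conj_re, Complex.normSq_conj, Complex.normSq_apply] at this
  simpa [pow_two] using this

theorem im_K (z : ℍ) : (K z).im = z.im / (z.re ^ 2 + z.im ^ 2) := by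
  have := congrArg Complex.im (coe_K z)
  rw [Complex.inv_im, Complex.conj_im, Complex.normSq_conj, Complex.normSq_apply, neg_neg] at this
  simpa [pow_two] using this

theorem K_tau (s : ℝ) (z : ℍ) : K (tau true s • z) = tau false s • K z := by
  ext
  rw [coe_K, coe_tau_true, coe_tau_false, coe_K]
  have hz : (starRingEnd ℂ) (z : ℂ) ≠ 0 := by
    simpa using z.ne_zero
  have hden : ((s : ℂ) * (z : ℂ) + 1) ≠ 0 := by
    intro h
    have h1 := congrArg Complex.im h
    have h2 := congrArg Complex.re h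
    simp at h1 h2
    rcases h1 with h1 | h1
    · rw [h1] at h2; simp at h2
    · exact z.im_ne_zero h1
  have hden' : ((s : ℂ) * (starRingEnd ℂ) (z : ℂ) + 1) ≠ 0 := by
    intro h
    apply hden
    have := congrArg (starRingEnd ℂ) h
    simpa using this
  rw [map_div₀, map_add, map_mul, map_one, Complex.conj_ofReal]
  field_simp
  ring

/-- the region: a closed quadrangle bounded by four horocyclic arcs -/
def X0 : Set ℍ := {z | 0 < z.re ∧ 1 / 10 ≤ z.im ∧ z.im ≤ 1 / 5 ∧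
  5 * z.im ≤ z.re ^ 2 + z.im ^ 2 ∧ z.re ^ 2 + z.im ^ 2 ≤ 10 * z.im}

theorem K_mem {z : ℍ} : K z ∈ X0 ↔ z ∈ X0 := by
  have key : ∀ z : ℍ, z ∈ X0 → K z ∈ X0 := by
    rintro z ⟨h1, h2, h3, h4, h5⟩
    have hN : 0 < z.re ^ 2 + z.im ^ 2 := by positivity
    have hN2 : (z.re / (z.re ^ 2 + z.im ^ 2)) ^ 2 + (z.im / (z.re ^ 2 + z.im ^ 2)) ^ 2 =
        1 / (z.re ^ 2 + z.im ^ 2) := by
      field_simp
    refine ⟨?_, ?_, ?_, ?_, ?_⟩
    · rw [re_K]; positivity
    · rw [im_K, le_div_iff₀ hN]; linarith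
    · rw [im_K, div_le_iff₀ hN]; linarith
    · rw [re_K, im_K, hN2, mul_div_assoc', div_le_div_iff_of_pos_right hN]; linarith
    · rw [re_K, im_K, hN2, mul_div_assoc', div_le_div_iff_of_pos_right hN]; linarith
  constructor
  · intro h
    have := key _ h
    rwa [K_K] at this
  · exact key z

/-- the left and right end of a horizontal slice -/
noncomputable def lo (y : ℝ) : ℝ := √(5 * y - y ^ 2)
noncomputable def hi (y : ℝ) : ℝ := √(10 * y - y ^ 2)

theorem mem_X0 {z : ℍ} : z ∈ X0 ↔ (1 / 10 ≤ z.im ∧ z.im ≤ 1 / 5) ∧ lo z.im ≤ z.re ∧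
    z.re ≤ hi z.im := by
  unfold lo hi
  constructor
  · rintro ⟨h1, h2, h3, h4, h5⟩
    refine ⟨⟨h2, h3⟩, ?_, ?_⟩
    · rw [Real.sqrt_le_left h1.le]; linarith
    · apply Real.le_sqrt_of_sq_le; linarith
  · rintro ⟨⟨h2, h3⟩, h4, h5⟩
    have hpos : 0 < √(5 * z.im - z.im ^ 2) := by
      apply Real.sqrt_pos.2; nlinarith
    have h6 : 0 < z.re := hpos.trans_le h4
    refine ⟨h6, h2, h3, ?_, ?_⟩
    · rw [Real.sqrt_le_left h6.le] at h4; linarith
    · have h7 := (Real.le_sqrt' h6).1 h5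
      linarith

theorem width {y : ℝ} (h1 : 1 / 10 ≤ y) (h2 : y ≤ 1 / 5) :
    lo y + 7 / 25 ≤ hi y ∧ hi y < lo y + 1 / 2 := by
  have e1 : lo y ^ 2 = 5 * y - y ^ 2 := by
    rw [lo, Real.sq_sqrt]; nlinarith
  have e2 : hi y ^ 2 = 10 * y - y ^ 2 := by
    rw [hi, Real.sq_sqrt]; nlinarith
  have p1 : 0 ≤ lo y := Real.sqrt_nonneg _
  have p2 : 0 ≤ hi y := Real.sqrt_nonneg _
  constructor
  · by_contra h
    push Not at h
    have h3 : hi y ^ 2 < (lo y + 7 / 25) ^ 2 := by
      apply pow_lt_pow_left₀ h p2 (by norm_num)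
    have h4 : lo y ≤ 68 / 100 := by
      nlinarith [sq_nonneg (lo y - 68 / 100)]
    nlinarith
  · by_contra h
    push Not at h
    have h3 : (lo y + 1 / 2) ^ 2 ≤ hi y ^ 2 := by
      apply pow_le_pow_left₀ (by positivity) h
    nlinarith


/-! ### Exchange maps -/

/-- small admissible lengths -/
def Adm (a : ℝ) : Prop := 1 / 4 ≤ a ∧ a ≤ 7 / 25

theorem exch_false {a b : ℝ} (ha : Adm a) (hb : Adm b) {z : ℍ} (hz : z ∈ X0) :
    (¬ (tau false a • z ∈ X0 ∧ tau false (-b) • z ∈ X0)) ∧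
    (tau false a • z ∉ X0 → tau false (-b) • z ∉ X0 → tau false (a - b) • z ∈ X0) ∧
    (¬ (tau false (-a) • z ∈ X0 ∧ tau false b • z ∈ X0)) ∧
    (tau false (-a) • z ∉ X0 → tau false b • z ∉ X0 → tau false (b - a) • z ∈ X0) := by
  simp only [mem_X0, re_tau_false, im_tau_false] at hz ⊢
  obtain ⟨⟨h1, h2⟩, h3, h4⟩ := hz
  obtain ⟨w1, w2⟩ := width h1 h2
  obtain ⟨a1, a2⟩ := ha
  obtain ⟨b1, b2⟩ := hb
  refine ⟨?_, ?_, ?_, ?_⟩
  · rintro ⟨⟨_, h5, h6⟩, _, h7, h8⟩
    linarith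
  · intro h5 h6
    refine ⟨⟨h1, h2⟩, ?_, ?_⟩
    · by_contra h7
      apply h5
      exact ⟨⟨h1, h2⟩, by linarith, by linarith⟩
    · by_contra h7
      apply h6
      exact ⟨⟨h1, h2⟩, by linarith, by linarith⟩
  · rintro ⟨⟨_, h5, h6⟩, _, h7, h8⟩
    linarith
  · intro h5 h6
    refine ⟨⟨h1, h2⟩, ?_, ?_⟩
    · by_contra h7
      apply h6
      exact ⟨⟨h1, h2⟩, by linarith, by linarith⟩
    · by_contra h7
      apply h5
      exact ⟨⟨h1, h2⟩, by linarith, by linarith⟩

theorem tau_mem (k : Bool) (s : ℝ) (z : ℍ) :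
    tau k s • z ∈ X0 ↔ tau false s • (if k then K z else z) ∈ X0 := by
  cases k
  · simp
  · simp only [if_true]
    rw [← K_tau, K_mem]

theorem exch {a b : ℝ} (ha : Adm a) (hb : Adm b) (k : Bool) {z : ℍ} (hz : z ∈ X0) :
    (¬ (tau k a • z ∈ X0 ∧ tau k (-b) • z ∈ X0)) ∧
    (tau k a • z ∉ X0 → tau k (-b) • z ∉ X0 → tau k (a - b) • z ∈ X0) ∧
    (¬ (tau k (-a) • z ∈ X0 ∧ tau k b • z ∈ X0)) ∧
    (tau k (-a) • z ∉ X0 → tau k b • z ∉ X0 → tau k (b - a) • z ∈ X0) := by
  simp only [tau_mem k]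
  apply exch_false ha hb
  cases k
  · simpa using hz
  · simpa using K_mem.2 hz

/-- a step of the exchange map with parameters `a`, `b` -/
def IsStep (k : Bool) (a b : ℝ) (z w : ℍ) : Prop :=
  w = tau k a • z ∨ w = tau k (-b) • z ∨ w = tau k (a - b) • z

/-- The exchange map on a subset `Y` of the region which is invariant inside the region. -/
theorem exists_exchange {a b : ℝ} (ha : Adm a) (hb : Adm b) (k : Bool) (Y : Set ℍ)
    (hY : Y ⊆ X0)
    (hinv : ∀ s, (s = a ∨ s = b ∨ s = -a ∨ s = -b ∨ s = a - b ∨ s = b - a) →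
      ∀ z ∈ Y, tau k s • z ∈ X0 → tau k s • z ∈ Y) :
    ∃ e : Equiv.Perm Y, ∀ z : Y, IsStep k a b (z : ℍ) (e z : ℍ) := by
  classical
  have hmem : ∀ s, (s = a ∨ s = b ∨ s = -a ∨ s = -b ∨ s = a - b ∨ s = b - a) →
      ∀ z ∈ Y, (tau k s • z ∈ X0 ↔ tau k s • z ∈ Y) := fun s hs z hz =>
    ⟨hinv s hs z hz, fun h => hY h⟩
  -- forward and backward maps
  have hab : ∀ z ∈ Y, tau k a • z ∉ Y → tau k (-b) • z ∉ Y → tau k (a - b) • z ∈ Y := by
    intro z hz h1 h2
    have := (exch ha hb k (hY hz)).2.1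
    rw [hmem a (by simp) z hz, hmem (-b) (by simp) z hz, hmem (a - b) (by simp) z hz] at this
    exact this h1 h2
  have hba : ∀ z ∈ Y, tau k (-a) • z ∉ Y → tau k b • z ∉ Y → tau k (b - a) • z ∈ Y := by
    intro z hz h1 h2
    have := (exch ha hb k (hY hz)).2.2.2
    rw [hmem (-a) (by simp) z hz, hmem b (by simp) z hz, hmem (b - a) (by simp) z hz] at this
    exact this h1 h2
  have hexa : ∀ z ∈ Y, tau k a • z ∈ Y → tau k (-b) • z ∈ Y → False := by
    intro z hz h1 h2
    have := (exch ha hb k (hY hz)).1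
    rw [hmem a (by simp) z hz, hmem (-b) (by simp) z hz] at this
    exact this ⟨h1, h2⟩
  have hexb : ∀ z ∈ Y, tau k (-a) • z ∈ Y → tau k b • z ∈ Y → False := by
    intro z hz h1 h2
    have := (exch ha hb k (hY hz)).2.2.1
    rw [hmem (-a) (by simp) z hz, hmem b (by simp) z hz] at this
    exact this ⟨h1, h2⟩
  let F : Y → Y := fun z =>
    if h : tau k a • (z : ℍ) ∈ Y then ⟨_, h⟩
    else if h' : tau k (-b) • (z : ℍ) ∈ Y then ⟨_, h'⟩
    else ⟨_, hab z z.2 h h'⟩
  let B : Y → Y := fun z =>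
    if h : tau k (-a) • (z : ℍ) ∈ Y then ⟨_, h⟩
    else if h' : tau k b • (z : ℍ) ∈ Y then ⟨_, h'⟩
    else ⟨_, hba z z.2 h h'⟩
  have back : ∀ s t (z : ℍ), tau k s • (tau k t • z) = tau k (s + t) • z := by
    intro s t z; rw [tau_add, mul_smul]
  have z0 : ∀ z : ℍ, tau k 0 • z = z := by intro z; rw [tau_zero, one_smul]
  have hBF : ∀ z, B (F z) = z := by
    rintro ⟨z, hz⟩
    by_cases h : tau k a • z ∈ Y
    · have hF : F ⟨z, hz⟩ = ⟨_, h⟩ := by simp only [F, dif_pos h]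
      have h2 : tau k (-a) • (tau k a • z) ∈ Y := by rw [back, neg_add_cancel, z0]; exact hz
      rw [hF]
      simp only [B, dif_pos h2]
      apply Subtype.ext
      change tau k (-a) • (tau k a • z) = z
      rw [back, neg_add_cancel, z0]
    · by_cases h' : tau k (-b) • z ∈ Y
      · have hF : F ⟨z, hz⟩ = ⟨_, h'⟩ := by simp only [F, dif_neg h, dif_pos h']
        have h3 : tau k b • (tau k (-b) • z) ∈ Y := by rw [back, add_neg_cancel, z0]; exact hz
        have h2 : tau k (-a) • (tau k (-b) • z) ∉ Y := fun h2 => hexb _ h' h2 h3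
        rw [hF]
        simp only [B, dif_neg h2, dif_pos h3]
        apply Subtype.ext
        change tau k b • (tau k (-b) • z) = z
        rw [back, add_neg_cancel, z0]
      · have hF : F ⟨z, hz⟩ = ⟨_, hab z hz h h'⟩ := by simp only [F, dif_neg h, dif_neg h']
        have h2 : tau k (-a) • (tau k (a - b) • z) ∉ Y := by
          rw [back]; rwa [show -a + (a - b) = -b by ring]
        have h3 : tau k b • (tau k (a - b) • z) ∉ Y := by
          rw [back]; rwa [show b + (a - b) = a by ring]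
        rw [hF]
        simp only [B, dif_neg h2, dif_neg h3]
        apply Subtype.ext
        change tau k (b - a) • (tau k (a - b) • z) = z
        rw [back, show b - a + (a - b) = 0 by ring, z0]
  have hFB : ∀ z, F (B z) = z := by
    rintro ⟨z, hz⟩
    by_cases h : tau k (-a) • z ∈ Y
    · have hB : B ⟨z, hz⟩ = ⟨_, h⟩ := by simp only [B, dif_pos h]
      have h2 : tau k a • (tau k (-a) • z) ∈ Y := by rw [back, add_neg_cancel, z0]; exact hz
      rw [hB]
      simp only [F, dif_pos h2]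
      apply Subtype.ext
      change tau k a • (tau k (-a) • z) = z
      rw [back, add_neg_cancel, z0]
    · by_cases h' : tau k b • z ∈ Y
      · have hB : B ⟨z, hz⟩ = ⟨_, h'⟩ := by simp only [B, dif_neg h, dif_pos h']
        have h3 : tau k (-b) • (tau k b • z) ∈ Y := by rw [back, neg_add_cancel, z0]; exact hz
        have h2 : tau k a • (tau k b • z) ∉ Y := fun h2 => hexa _ h' h2 h3
        rw [hB]
        simp only [F, dif_neg h2, dif_pos h3]
        apply Subtype.ext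
        change tau k (-b) • (tau k b • z) = z
        rw [back, neg_add_cancel, z0]
      · have hB : B ⟨z, hz⟩ = ⟨_, hba z hz h h'⟩ := by simp only [B, dif_neg h, dif_neg h']
        have h2 : tau k a • (tau k (b - a) • z) ∉ Y := by
          rw [back]; rwa [show a + (b - a) = b by ring]
        have h3 : tau k (-b) • (tau k (b - a) • z) ∉ Y := by
          rw [back]; rwa [show -b + (b - a) = -a by ring]
        rw [hB]
        simp only [F, dif_neg h2, dif_neg h3]
        apply Subtype.ext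
        change tau k (a - b) • (tau k (b - a) • z) = z
        rw [back, show a - b + (b - a) = 0 by ring, z0]
  refine ⟨⟨F, B, hBF, hFB⟩, ?_⟩
  rintro ⟨z, hz⟩
  by_cases h : tau k a • z ∈ Y
  · left; simp only [Equiv.coe_fn_mk, F, dif_pos h]
  · by_cases h' : tau k (-b) • z ∈ Y
    · right; left; simp only [Equiv.coe_fn_mk, F, dif_neg h, dif_pos h']
    · right; right; simp only [Equiv.coe_fn_mk, F, dif_neg h, dif_neg h']


/-! ### The group generated and its fixed points -/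

/-- the group generated by four unipotent matrices -/
noncomputable def G4 (a b : ℝ) : FreeGroup (Bool × Bool) →* Matrix.SpecialLinearGroup (Fin 2) ℝ :=
  FreeGroup.lift (fun p => tau p.1 (if p.2 then a else b))

/-- points fixed by a non-scalar element -/
def Dset (a b : ℝ) : Set ℍ :=
  {z | ∃ M ∈ (G4 a b).range, M ≠ 1 ∧ M ≠ -1 ∧ M • z = z}

theorem fixed_unique (M : Matrix.SpecialLinearGroup (Fin 2) ℝ) (h1 : M ≠ 1) (h2 : M ≠ -1)
    {z w : ℍ} (hz : M • z = z) (hw : M • w = w) : z = w := by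
  have key : ∀ z : ℍ, M • z = z →
      2 * M 1 0 * z.re + (M 1 1 - M 0 0) = 0 ∧ M 1 0 * (z.re ^ 2 + z.im ^ 2) + M 0 1 = 0 := by
    intro z hz
    have h := coe_specialLinearGroup_apply M z
    rw [hz] at h
    have hden : ((algebraMap ℝ ℝ (M 1 0) : ℂ) * z + (algebraMap ℝ ℝ (M 1 1) : ℂ)) ≠ 0 := by
      intro h0
      rw [h0, div_zero] at h
      exact z.ne_zero h
    rw [eq_div_iff hden] at h
    have hre := congrArg Complex.re h
    have him := congrArg Complex.im h
    simp at hre him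
    have hy := z.im_pos
    have e1 : 2 * M 1 0 * z.re + (M 1 1 - M 0 0) = 0 := by
      have : z.im * (2 * M 1 0 * z.re + (M 1 1 - M 0 0)) = 0 := by linarith
      rcases mul_eq_zero.1 this with h' | h'
      · exact absurd h' hy.ne'
      · exact h'
    refine ⟨e1, ?_⟩
    have : M 0 0 = 2 * M 1 0 * z.re + M 1 1 := by linarith
    rw [this] at hre
    linarith
  obtain ⟨a1, a2⟩ := key z hz
  obtain ⟨b1, b2⟩ := key w hw
  have hdet := Matrix.SpecialLinearGroup.det_coe M
  rw [Matrix.det_fin_two] at hdet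
  by_cases hc : M 1 0 = 0
  · exfalso
    rw [hc] at a1 a2 hdet
    have e1 : M 0 1 = 0 := by linarith
    have e2 : M 0 0 = M 1 1 := by linarith
    rw [e1, e2] at hdet
    have e3 : M 1 1 = 1 ∨ M 1 1 = -1 := by
      have : (M 1 1 - 1) * (M 1 1 + 1) = 0 := by linarith
      rcases mul_eq_zero.1 this with h' | h'
      · left; linarith
      · right; linarith
    rcases e3 with e3 | e3
    · apply h1
      ext i j
      fin_cases i <;> fin_cases j <;> simp [hc, e1, e2, e3]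
    · apply h2
      ext i j
      fin_cases i <;> fin_cases j <;> simp [hc, e1, e2, e3]
  · have hre : z.re = w.re := by
      have : M 1 0 * (z.re - w.re) = 0 := by linarith
      rcases mul_eq_zero.1 this with h' | h'
      · exact absurd h' hc
      · linarith
    have him2 : z.im ^ 2 = w.im ^ 2 := by
      have : M 1 0 * ((z.re ^ 2 + z.im ^ 2) - (w.re ^ 2 + w.im ^ 2)) = 0 := by linarith
      rcases mul_eq_zero.1 this with h' | h'
      · exact absurd h' hc
      · rw [hre] at h'; linarith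
    have him : z.im = w.im := by
      have := (pow_left_inj₀ z.im_pos.le w.im_pos.le (two_ne_zero)).1 him2
      exact this
    exact UpperHalfPlane.ext_re_im hre him

theorem countable_Dset (a b : ℝ) : (Dset a b).Countable := by
  have hr : ((G4 a b).range : Set (Matrix.SpecialLinearGroup (Fin 2) ℝ)).Countable := by
    rw [MonoidHom.coe_range]
    exact Set.countable_range _
  have : Dset a b = ⋃ M ∈ ((G4 a b).range : Set (Matrix.SpecialLinearGroup (Fin 2) ℝ)),
      {z : ℍ | M ≠ 1 ∧ M ≠ -1 ∧ M • z = z} := by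
    ext z
    simp only [Dset, Set.mem_ofPred_eq, Set.mem_iUnion, SetLike.mem_coe, exists_prop]
  rw [this]
  refine hr.biUnion ?_
  intro M hM
  refine Set.Subsingleton.countable ?_
  rintro z ⟨h1, h2, hz⟩ w ⟨_, _, hw⟩
  exact fixed_unique M h1 h2 hz hw

theorem Dset_inv (a b : ℝ) {g : Matrix.SpecialLinearGroup (Fin 2) ℝ} (hg : g ∈ (G4 a b).range)
    {z : ℍ} (hz : g • z ∈ Dset a b) : z ∈ Dset a b := by
  obtain ⟨M, hM, h1, h2, h3⟩ := hz
  refine ⟨g⁻¹ * M * g, ?_, ?_, ?_, ?_⟩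
  · exact Subgroup.mul_mem _ (Subgroup.mul_mem _ (Subgroup.inv_mem _ hg) hM) hg
  · intro h
    apply h1
    have : M = g * (g⁻¹ * M * g) * g⁻¹ := by group
    rw [this, h]; group
  · intro h
    apply h2
    have : M = g * (g⁻¹ * M * g) * g⁻¹ := by group
    rw [this, h]
    simp
  · rw [mul_smul, mul_smul, h3, inv_smul_smul]

theorem tau_mem_range (a b : ℝ) (k : Bool) {s : ℝ}
    (hs : s = a ∨ s = b ∨ s = -a ∨ s = -b ∨ s = a - b ∨ s = b - a) :
    tau k s ∈ (G4 a b).range := by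
  have ha : tau k a ∈ (G4 a b).range := ⟨FreeGroup.of (k, true), by simp [G4]⟩
  have hb : tau k b ∈ (G4 a b).range := ⟨FreeGroup.of (k, false), by simp [G4]⟩
  have ha' : tau k (-a) ∈ (G4 a b).range := by rw [tau_neg]; exact Subgroup.inv_mem _ ha
  have hb' : tau k (-b) ∈ (G4 a b).range := by rw [tau_neg]; exact Subgroup.inv_mem _ hb
  rcases hs with rfl | rfl | rfl | rfl | rfl | rfl
  · exact ha
  · exact hb
  · exact ha'
  · exact hb'
  · rw [sub_eq_add_neg, tau_add]; exact Subgroup.mul_mem _ ha hb'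
  · rw [sub_eq_add_neg, tau_add]; exact Subgroup.mul_mem _ hb ha'

/-! ### Polynomials -/

open Polynomial

/-- the polynomial `(i X - j X²) / 4` -/
noncomputable def pl (i j : ℕ) : ℚ[X] := C ((i : ℚ) / 4) * X - C ((j : ℚ) / 4) * X ^ 2

theorem pl_add (i j i' j' : ℕ) : pl i j + pl i' j' = pl (i + i') (j + j') := by
  simp only [pl, Nat.cast_add, add_div, C_add]
  ring

theorem pl_degree {i j : ℕ} (h : i ≠ 0 ∨ j ≠ 0) : 0 < (pl i j).degree := by
  by_contra hcon
  push Not at hcon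
  have h1 : (pl i j).coeff 1 = (i : ℚ) / 4 := by
    simp [pl, coeff_X_pow]
  have h2 : (pl i j).coeff 2 = -((j : ℚ) / 4) := by
    simp [pl]
  have h1' : (pl i j).coeff 1 = 0 := coeff_eq_zero_of_degree_lt (hcon.trans_lt (by norm_num))
  have h2' : (pl i j).coeff 2 = 0 := coeff_eq_zero_of_degree_lt (hcon.trans_lt (by norm_num))
  rw [h1] at h1'
  rw [h2] at h2'
  rcases h with h | h
  · apply h
    have : (i : ℚ) = 0 := by linarith
    exact_mod_cast this
  · apply h
    have : (j : ℚ) = 0 := by linarith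
    exact_mod_cast this


/-- the index of a generator as a Boolean -/
def kb (i : Fin 2) : Bool := decide (i = 1)

/-- signed admissible polynomials -/
def Sg (b : Bool) (p : ℚ[X]) : Prop :=
  ∃ i j : ℕ, (i ≠ 0 ∨ j ≠ 0) ∧ p = if b then pl i j else -pl i j

theorem Sg_add {b : Bool} {p q : ℚ[X]} (hp : Sg b p) (hq : Sg b q) : Sg b (p + q) := by
  obtain ⟨i, j, h, rfl⟩ := hp
  obtain ⟨i', j', h', rfl⟩ := hq
  refine ⟨i + i', j + j', ?_, ?_⟩
  · rcases h with h | h
    · left; omega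
    · right; omega
  · cases b
    · simp only [Bool.false_eq_true, if_false, ← pl_add]; ring
    · simp only [if_true, ← pl_add]

theorem Sg_degree {b : Bool} {p : ℚ[X]} (hp : Sg b p) : 0 < p.degree := by
  obtain ⟨i, j, h, rfl⟩ := hp
  cases b
  · simp only [Bool.false_eq_true, if_false, degree_neg]; exact pl_degree h
  · simp only [if_true]; exact pl_degree h

/-- row sums of a matrix -/
def c0 (M : Matrix.SpecialLinearGroup (Fin 2) ℝ) : ℝ := M 0 0 + M 0 1
def c1 (M : Matrix.SpecialLinearGroup (Fin 2) ℝ) : ℝ := M 1 0 + M 1 1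

theorem c0_false (s : ℝ) (M : Matrix.SpecialLinearGroup (Fin 2) ℝ) :
    c0 (tau false s * M) = c0 M + s * c1 M := by
  simp only [c0, c1, Matrix.SpecialLinearGroup.coe_mul]
  simp [tau, Matrix.mul_apply, Fin.sum_univ_two]
  ring

theorem c1_false (s : ℝ) (M : Matrix.SpecialLinearGroup (Fin 2) ℝ) :
    c1 (tau false s * M) = c1 M := by
  simp only [c1, Matrix.SpecialLinearGroup.coe_mul]
  simp [tau, Matrix.mul_apply, Fin.sum_univ_two]

theorem c0_true (s : ℝ) (M : Matrix.SpecialLinearGroup (Fin 2) ℝ) :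
    c0 (tau true s * M) = c0 M := by
  simp only [c0, Matrix.SpecialLinearGroup.coe_mul]
  simp [tau, Matrix.mul_apply, Fin.sum_univ_two]

theorem c1_true (s : ℝ) (M : Matrix.SpecialLinearGroup (Fin 2) ℝ) :
    c1 (tau true s * M) = c1 M + s * c0 M := by
  simp only [c0, c1, Matrix.SpecialLinearGroup.coe_mul]
  simp [tau, Matrix.mul_apply, Fin.sum_univ_two]
  ring

/-- the invariant of a nonempty reduced word starting with the letter `(k, b)` -/
def Inv (θ : ℝ) (k b : Bool) (M : Matrix.SpecialLinearGroup (Fin 2) ℝ) : Prop :=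
  ∃ f g s : ℚ[X], Sg b s ∧ g ≠ 0 ∧ f.degree ≤ g.degree ∧
    (if k then c0 M else c1 M) = aeval θ g ∧ (if k then c1 M else c0 M) = aeval θ (f + s * g)

theorem Inv_base (θ : ℝ) (k b : Bool) (s : ℚ[X]) (hs : Sg b s) :
    Inv θ k b (tau k (aeval θ s)) := by
  refine ⟨1, 1, s, hs, one_ne_zero, le_rfl, ?_, ?_⟩
  · cases k
    · simp [c1, tau]
    · simp [c0, tau]
  · cases k
    · simp [c0, tau]
    · simp [c1, tau, add_comm]

theorem Inv_same (θ : ℝ) (k b : Bool) (s : ℚ[X]) (hs : Sg b s)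
    {M : Matrix.SpecialLinearGroup (Fin 2) ℝ} (hM : Inv θ k b M) :
    Inv θ k b (tau k (aeval θ s) * M) := by
  obtain ⟨f, g, s', hs', hg, hfg, h1, h2⟩ := hM
  refine ⟨f, g, s + s', Sg_add hs hs', hg, hfg, ?_, ?_⟩
  · cases k
    · simp only [Bool.false_eq_true, if_false] at h1 ⊢
      rw [c1_false, h1]
    · simp only [if_true] at h1 ⊢
      rw [c0_true, h1]
  · cases k
    · simp only [Bool.false_eq_true, if_false] at h1 h2 ⊢
      rw [c0_false, h1, h2, ← map_mul, ← map_add]; congr 1; ring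
    · simp only [if_true] at h1 h2 ⊢
      rw [c1_true, h1, h2, ← map_mul, ← map_add]; congr 1; ring

theorem degree_lt {b : Bool} {f g s : ℚ[X]} (hs : Sg b s) (hg : g ≠ 0)
    (hfg : f.degree ≤ g.degree) : g.degree < (f + s * g).degree := by
  have hsd := Sg_degree hs
  have h1 : g.degree < (s * g).degree := by
    rw [degree_mul]
    have hgd : g.degree ≠ ⊥ := by rwa [ne_eq, degree_eq_bot]
    have hs0 : s ≠ 0 := by
      rintro rfl
      simp at hsd
    rw [degree_eq_natDegree hg, degree_eq_natDegree hs0] at *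
    have : (0 : ℕ) < s.natDegree := by exact_mod_cast hsd
    exact_mod_cast (by omega : g.natDegree < s.natDegree + g.natDegree)
  rw [degree_add_eq_right_of_degree_lt (hfg.trans_lt h1)]
  exact h1

theorem Inv_diff (θ : ℝ) (k b b' : Bool) (s : ℚ[X]) (hs : Sg b s)
    {M : Matrix.SpecialLinearGroup (Fin 2) ℝ} (hM : Inv θ (!k) b' M) :
    Inv θ k b (tau k (aeval θ s) * M) := by
  obtain ⟨f, g, s', hs', hg, hfg, h1, h2⟩ := hM
  have hd := degree_lt hs' hg hfg
  refine ⟨g, f + s' * g, s, hs, ?_, hd.le, ?_, ?_⟩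
  · intro h
    rw [h, degree_zero] at hd
    exact not_lt_bot hd
  · cases k
    · simp only [Bool.not_false, if_true, Bool.false_eq_true, if_false] at h2 ⊢
      rw [c1_false, h2]
    · simp only [Bool.not_true, if_true, Bool.false_eq_true, if_false] at h2 ⊢
      rw [c0_true, h2]
  · cases k
    · simp only [Bool.not_false, if_true, Bool.false_eq_true, if_false] at h1 h2 ⊢
      rw [c0_false, h1, h2, ← map_mul, ← map_add]
    · simp only [Bool.not_true, if_true, Bool.false_eq_true, if_false] at h1 h2 ⊢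
      rw [c1_true, h1, h2, ← map_mul, ← map_add]

theorem Inv_ne {θ : ℝ} (hθ : Transcendental ℚ θ) {k b : Bool}
    {M : Matrix.SpecialLinearGroup (Fin 2) ℝ} (hM : Inv θ k b M) : M ≠ 1 ∧ M ≠ -1 := by
  obtain ⟨f, g, s, hs, hg, hfg, h1, h2⟩ := hM
  have hd := degree_lt hs hg hfg
  have hne : aeval θ g ≠ aeval θ (f + s * g) := by
    intro h
    have := transcendental_iff_injective.1 hθ h
    rw [← this] at hd
    exact lt_irrefl _ hd
  constructor
  · rintro rfl
    apply hne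
    rw [← h1, ← h2]
    cases k <;> simp [c0, c1]
  · rintro rfl
    apply hne
    rw [← h1, ← h2]
    cases k <;> simp [c0, c1]

theorem step_poly {θ : ℝ} {k : Bool} {z w : ℍ} (h : IsStep k (θ / 4) (θ ^ 2 / 4) z w) :
    ∃ i j : ℕ, (i ≠ 0 ∨ j ≠ 0) ∧ w = tau k (aeval θ (pl i j)) • z := by
  rcases h with h | h | h
  · refine ⟨1, 0, by simp, ?_⟩
    rw [h]; congr 2; simp [pl]; ring
  · refine ⟨0, 1, by simp, ?_⟩
    rw [h]; congr 2; simp [pl]; ring
  · refine ⟨1, 1, by simp, ?_⟩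
    rw [h]; congr 2; simp [pl]; ring

theorem word_inv {θ : ℝ} {Y : Set ℍ} (e : Fin 2 → Equiv.Perm Y)
    (he : ∀ i, ∀ z : Y, IsStep (kb i) (θ / 4) (θ ^ 2 / 4) (z : ℍ) (e i z : ℍ))
    (l : Fin 2 × Bool) (L : List (Fin 2 × Bool)) (hL : FreeGroup.IsReduced (l :: L)) (z : Y) :
    ∃ M ∈ (G4 (θ / 4) (θ ^ 2 / 4)).range,
      ((((l :: L).map (fun x => cond x.2 (e x.1) (e x.1)⁻¹)).prod z : Y) : ℍ) = M • (z : ℍ) ∧
      Inv θ (kb l.1) l.2 M := by
  -- one letter
  have hone : ∀ (l : Fin 2 × Bool) (z : Y), ∃ s : ℚ[X], Sg l.2 s ∧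
      tau (kb l.1) (aeval θ s) ∈ (G4 (θ / 4) (θ ^ 2 / 4)).range ∧
      (((cond l.2 (e l.1) (e l.1)⁻¹ : Equiv.Perm Y) z : Y) : ℍ) =
        tau (kb l.1) (aeval θ s) • (z : ℍ) := by
    rintro ⟨i, b⟩ z
    have hrange : ∀ s, (∃ z w : ℍ, True) → (s = θ / 4 ∨ s = -(θ ^ 2 / 4) ∨ s = θ / 4 - θ ^ 2 / 4) →
        tau (kb i) s ∈ (G4 (θ / 4) (θ ^ 2 / 4)).range := by
      intro s _ hs
      apply tau_mem_range
      tauto
    have main : ∀ z w : Y, ((w : Y) : ℍ) = (e i z : ℍ) → ∃ s : ℚ[X], Sg true s ∧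
        tau (kb i) (aeval θ s) ∈ (G4 (θ / 4) (θ ^ 2 / 4)).range ∧
        (w : ℍ) = tau (kb i) (aeval θ s) • (z : ℍ) := by
      intro z w hw
      have h := he i z
      rw [← hw] at h
      rcases h with h | h | h
      · have e1 : aeval θ (pl 1 0) = θ / 4 := by simp [pl]; ring
        refine ⟨pl 1 0, ⟨1, 0, by simp, rfl⟩, ?_, ?_⟩
        · rw [e1]; exact tau_mem_range _ _ _ (by simp)
        · rw [e1]; exact h
      · have e1 : aeval θ (pl 0 1) = -(θ ^ 2 / 4) := by simp [pl]; ring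
        refine ⟨pl 0 1, ⟨0, 1, by simp, rfl⟩, ?_, ?_⟩
        · rw [e1]; exact tau_mem_range _ _ _ (by simp)
        · rw [e1]; exact h
      · have e1 : aeval θ (pl 1 1) = θ / 4 - θ ^ 2 / 4 := by simp [pl]; ring
        refine ⟨pl 1 1, ⟨1, 1, by simp, rfl⟩, ?_, ?_⟩
        · rw [e1]; exact tau_mem_range _ _ _ (by simp)
        · rw [e1]; exact h
    cases b
    · -- inverse letter
      set w : Y := (e i)⁻¹ z with hw
      have hz : z = e i w := by rw [hw]; simp
      obtain ⟨s, ⟨i', j', hij, hs⟩, hmem, heq⟩ := main w z (by rw [hz])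
      refine ⟨-s, ⟨i', j', hij, by simpa using hs⟩, ?_, ?_⟩
      · rw [map_neg, tau_neg]; exact Subgroup.inv_mem _ hmem
      · change ((w : Y) : ℍ) = _
        rw [heq, map_neg, tau_neg, inv_smul_smul]
    · obtain ⟨s, hs, hmem, heq⟩ := main z (e i z) rfl
      exact ⟨s, hs, hmem, heq⟩
  induction L generalizing l with
  | nil =>
    obtain ⟨s, hs, hmem, heq⟩ := hone l z
    refine ⟨_, hmem, ?_, Inv_base θ _ _ s hs⟩
    simpa using heq
  | cons l' L ih =>
    have hr := (FreeGroup.isReduced_cons_cons).1 hL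
    obtain ⟨M, hM, hMz, hinv⟩ := ih l' hr.2
    set y : Y := ((l' :: L).map (fun x => cond x.2 (e x.1) (e x.1)⁻¹)).prod z with hy
    obtain ⟨s, hs, hmem, heq⟩ := hone l y
    refine ⟨tau (kb l.1) (aeval θ s) * M, Subgroup.mul_mem _ hmem hM, ?_, ?_⟩
    · rw [List.map_cons, List.prod_cons, Equiv.Perm.mul_apply, ← hy, heq, hMz, mul_smul]
    · by_cases hk : kb l'.1 = kb l.1
      · have h1 : l.1 = l'.1 := by
          have := hk
          simp only [kb, decide_eq_decide] at this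
          omega
        rw [hk, ← hr.1 h1] at hinv
        exact Inv_same θ _ _ s hs hinv
      · have h2 : kb l'.1 = !(kb l.1) := by
          cases h : kb l'.1 <;> cases h' : kb l.1 <;> simp_all
        rw [h2] at hinv
        exact Inv_diff θ _ _ _ s hs hinv


/-! ### Absorbing the exceptional set -/

theorem absorb {X : Type} (D : Set X) (χ : Equiv.Perm X)
    (h : ∀ n : ℕ, 0 < n → ∀ d ∈ D, (χ ^ n) d ∉ D) :
    ∃ θ : X ≃ {x // x ∉ D}, ∀ x, (θ x : X) = x ∨ (θ x : X) = χ x := by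
  classical
  let A : Set X := {x | ∃ n : ℕ, ∃ d ∈ D, x = (χ ^ n) d}
  have hDA : D ⊆ A := fun d hd => ⟨0, d, hd, by simp⟩
  have hχ : ∀ x ∈ A, χ x ∉ D := by
    rintro x ⟨n, d, hd, rfl⟩
    have := h (n + 1) (Nat.succ_pos n) d hd
    rwa [pow_succ', Equiv.Perm.mul_apply] at this
  have hχA : ∀ x ∈ A, χ x ∈ A := by
    rintro x ⟨n, d, hd, rfl⟩
    exact ⟨n + 1, d, hd, by rw [pow_succ', Equiv.Perm.mul_apply]⟩
  let f : X → {x // x ∉ D} := fun x =>
    if hx : x ∈ A then ⟨χ x, hχ x hx⟩ else ⟨x, fun hd => hx (hDA hd)⟩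
  have hf1 : ∀ x, x ∈ A → (f x : X) = χ x := by
    intro x hx; simp only [f, dif_pos hx]
  have hf2 : ∀ x, x ∉ A → (f x : X) = x := by
    intro x hx; simp only [f, dif_neg hx]
  have hinj : Function.Injective f := by
    intro x y hxy
    have hxy' : (f x : X) = f y := congrArg Subtype.val hxy
    by_cases hx : x ∈ A
    · by_cases hy : y ∈ A
      · rw [hf1 x hx, hf1 y hy] at hxy'
        exact χ.injective hxy'
      · rw [hf1 x hx, hf2 y hy] at hxy'
        exact absurd (hxy' ▸ hχA x hx) hy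
    · by_cases hy : y ∈ A
      · rw [hf2 x hx, hf1 y hy] at hxy'
        exact absurd (hxy' ▸ hχA y hy) hx
      · rw [hf2 x hx, hf2 y hy] at hxy'
        exact hxy'
  have hsurj : Function.Surjective f := by
    rintro ⟨y, hy⟩
    by_cases hyA : y ∈ A
    · obtain ⟨n, d, hd, rfl⟩ := hyA
      cases n with
      | zero => exact absurd hd (by simpa using hy)
      | succ n =>
        refine ⟨(χ ^ n) d, Subtype.ext ?_⟩
        change (f ((χ ^ n) d) : X) = (χ ^ (n + 1)) d
        rw [hf1 _ ⟨n, d, hd, rfl⟩, pow_succ', Equiv.Perm.mul_apply]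
    · exact ⟨y, Subtype.ext (hf2 y hyA)⟩
  refine ⟨Equiv.ofBijective f ⟨hinj, hsurj⟩, fun x => ?_⟩
  by_cases hx : x ∈ A
  · right; exact hf1 x hx
  · left; exact hf2 x hx

/-- a map given by finitely many isometries -/
def FinIso {A B : Set ℍ} (f : A → B) : Prop :=
  ∃ S : Set (ℍ ≃ᵢ ℍ), S.Finite ∧ ∀ x : A, ∃ g ∈ S, (f x : ℍ) = g (x : ℍ)

theorem FinIso.comp {A B C : Set ℍ} {f : B → C} {g : A → B} (hf : FinIso f) (hg : FinIso g) :
    FinIso (f ∘ g) := by
  obtain ⟨S, hS, h1⟩ := hf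
  obtain ⟨T, hT, h2⟩ := hg
  refine ⟨Set.image2 (fun s t => t.trans s) S T, hS.image2 _ hT, fun x => ?_⟩
  obtain ⟨t, ht, htx⟩ := h2 x
  obtain ⟨s, hs, hsx⟩ := h1 (g x)
  refine ⟨_, ⟨s, hs, t, ht, rfl⟩, ?_⟩
  rw [Function.comp_apply, hsx, htx]
  rfl

theorem FinIso.symm {A B : Set ℍ} {f : A ≃ B} (hf : FinIso f) : FinIso f.symm := by
  obtain ⟨S, hS, h1⟩ := hf
  refine ⟨(fun s => s.symm) '' S, hS.image _, fun y => ?_⟩
  obtain ⟨g, hg, hgx⟩ := h1 (f.symm y)
  refine ⟨g.symm, ⟨g, hg, rfl⟩, ?_⟩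
  rw [Equiv.apply_symm_apply] at hgx
  rw [hgx, IsometryEquiv.symm_apply_apply]

theorem finIso_of_step {Y : Set ℍ} {k : Bool} {a b : ℝ} (e : Y → Y)
    (he : ∀ z : Y, IsStep k a b (z : ℍ) (e z : ℍ)) : FinIso e := by
  refine ⟨{IsometryEquiv.constSMul (tau k a), IsometryEquiv.constSMul (tau k (-b)),
    IsometryEquiv.constSMul (tau k (a - b))}, by simp, fun x => ?_⟩
  rcases he x with h | h | h
  · exact ⟨_, Or.inl rfl, h⟩
  · exact ⟨_, Or.inr (Or.inl rfl), h⟩
  · exact ⟨_, Or.inr (Or.inr rfl), h⟩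

/-! ### The definitions of the statement -/

/-- A piecewise isometry of `X`: a bijection of `X` for which there is a partition of `X` into
finitely many pieces such that on each piece it agrees with an isometry of the hyperbolic plane. -/
def IsPiecewiseIsometry {X : Set ℍ} (f : Equiv.Perm X) : Prop :=
  ∃ (n : ℕ) (P : Fin n → Set X) (g : Fin n → (ℍ ≃ᵢ ℍ)),
    (Pairwise fun i j => Disjoint (P i) (P j)) ∧ (⋃ i, P i) = Set.univ ∧
    ∀ i, ∀ x ∈ P i, ((f x : X) : ℍ) = g i (x : ℍ)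

/-- Two bijections are independent: they freely generate a free group of rank two. -/
def Independent {X : Set ℍ} (φ ψ : Equiv.Perm X) : Prop :=
  Function.Injective (FreeGroup.lift ![φ, ψ] : FreeGroup (Fin 2) → Equiv.Perm X)

/-- A group of bijections acts without nontrivial fixed points. -/
def NoFixedPoints {X : Set ℍ} (G : Subgroup (Equiv.Perm X)) : Prop :=
  ∀ g ∈ G, (∃ x, g x = x) → g = 1

theorem IsPiecewiseIsometry.of_finIso {X : Set ℍ} {f : Equiv.Perm X} (hf : FinIso f) :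
    IsPiecewiseIsometry f := by
  obtain ⟨S, hS, h⟩ := hf
  have : Finite S := hS
  obtain ⟨n, ⟨e⟩⟩ := Finite.exists_equiv_fin S
  have h' : ∀ x : X, ∃ i : Fin n, (f x : ℍ) = (e.symm i : ℍ ≃ᵢ ℍ) (x : ℍ) := by
    intro x
    obtain ⟨g, hg, hgx⟩ := h x
    refine ⟨e ⟨g, hg⟩, ?_⟩
    rw [Equiv.symm_apply_apply]
    exact hgx
  choose c hc using h'
  refine ⟨n, fun i => c ⁻¹' {i}, fun i => (e.symm i : ℍ ≃ᵢ ℍ), ?_, ?_, ?_⟩
  · intro i j hij
    rw [Set.disjoint_left]
    intro x hx hx'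
    exact hij ((Set.mem_singleton_iff.1 hx).symm.trans (Set.mem_singleton_iff.1 hx'))
  · refine Set.eq_univ_of_forall fun x => Set.mem_iUnion.2 ⟨c x, rfl⟩
  · intro i x hx
    rw [← Set.mem_singleton_iff.1 hx]
    exact hc x

theorem bounded_X0 : Bornology.IsBounded X0 := by
  rw [Metric.isBounded_iff]
  refine ⟨40, ?_⟩
  rintro z hz w hw
  refine (dist_le_dist_coe_div_sqrt z w).trans ?_
  obtain ⟨z1, z2, z3, z4, z5⟩ := hz
  obtain ⟨w1, w2, w3, w4, w5⟩ := hw
  have hs : (1 : ℝ) / 10 ≤ √(z.im * w.im) := by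
    apply Real.le_sqrt_of_sq_le
    nlinarith
  have hd : dist (z : ℂ) (w : ℂ) ≤ 4 := by
    rw [Complex.dist_eq_re_im]
    rw [Real.sqrt_le_left (by norm_num)]
    change (z.re - w.re) ^ 2 + (z.im - w.im) ^ 2 ≤ 4 ^ 2
    nlinarith
  rw [div_le_iff₀ (by linarith)]
  nlinarith

theorem interior_X0 : (interior X0).Nonempty := by
  let U : Set ℍ := {z | 0 < z.re ∧ 1 / 10 < z.im ∧ z.im < 1 / 5 ∧
    5 * z.im < z.re ^ 2 + z.im ^ 2 ∧ z.re ^ 2 + z.im ^ 2 < 10 * z.im}
  have hre : Continuous (fun z : ℍ => z.re) := UpperHalfPlane.continuous_re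
  have him : Continuous (fun z : ℍ => z.im) := UpperHalfPlane.continuous_im
  have hU : IsOpen U := by
    refine IsOpen.inter (isOpen_lt continuous_const hre) ?_
    refine IsOpen.inter (isOpen_lt continuous_const him) ?_
    refine IsOpen.inter (isOpen_lt him continuous_const) ?_
    exact IsOpen.inter
      (isOpen_lt (continuous_const.mul him) ((hre.pow 2).add (him.pow 2)))
      (isOpen_lt ((hre.pow 2).add (him.pow 2)) (continuous_const.mul him))
  have hsub : U ⊆ X0 := by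
    rintro z ⟨h1, h2, h3, h4, h5⟩
    exact ⟨h1, h2.le, h3.le, h4.le, h5.le⟩
  refine ⟨⟨⟨1, 3 / 20⟩, by norm_num⟩, ?_⟩
  rw [mem_interior]
  refine ⟨U, hsub, hU, ?_⟩
  refine ⟨?_, ?_, ?_, ?_, ?_⟩ <;>
    simp only [UpperHalfPlane.mk_re, UpperHalfPlane.mk_im] <;> norm_num

/-- generic parameters for the absorbing exchange -/
theorem exists_generic (Δ : Set ℝ) (hΔ : Δ.Countable) :
    ∃ a b : ℝ, Adm a ∧ Adm b ∧ ∀ i j : ℕ, (i ≠ 0 ∨ j ≠ 0) → (i : ℝ) * a - j * b ∉ Δ := by
  have hbad1 : (⋃ j : {j : ℕ // j ≠ 0}, {b : ℝ | -((j : ℕ) * b) ∈ Δ}).Countable := by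
    refine Set.countable_iUnion fun j => ?_
    refine hΔ.preimage (f := fun b : ℝ => -((j : ℕ) * b)) ?_
    intro x y h
    have hj : ((j : ℕ) : ℝ) ≠ 0 := by exact_mod_cast j.2
    have h' : ((j : ℕ) : ℝ) * x = (j : ℕ) * y := by simpa using h
    exact mul_left_cancel₀ hj h'
  obtain ⟨b, hb, hb1, hb2⟩ := (hbad1.dense_compl ℝ).exists_between
    (by norm_num : (1 : ℝ) / 4 < 7 / 25)
  have hbad2 : (⋃ i : {i : ℕ // i ≠ 0}, ⋃ j : ℕ, {a : ℝ | ((i : ℕ) : ℝ) * a - j * b ∈ Δ}).Countable := by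
    refine Set.countable_iUnion fun i => Set.countable_iUnion fun j => ?_
    refine hΔ.preimage (f := fun a : ℝ => ((i : ℕ) : ℝ) * a - j * b) ?_
    intro x y h
    have hi : ((i : ℕ) : ℝ) ≠ 0 := by exact_mod_cast i.2
    have h' : ((i : ℕ) : ℝ) * x = (i : ℕ) * y := by
      have : ((i : ℕ) : ℝ) * x - j * b = (i : ℕ) * y - j * b := h
      linarith
    exact mul_left_cancel₀ hi h'
  obtain ⟨a, ha, ha1, ha2⟩ := (hbad2.dense_compl ℝ).exists_between
    (by norm_num : (1 : ℝ) / 4 < 7 / 25)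
  refine ⟨a, b, ⟨ha1.le, ha2.le⟩, ⟨hb1.le, hb2.le⟩, ?_⟩
  intro i j hij hmem
  by_cases hi : i = 0
  · have hj : j ≠ 0 := by tauto
    apply hb
    simp only [Set.mem_iUnion]
    refine ⟨⟨j, hj⟩, ?_⟩
    rw [hi] at hmem
    simpa using hmem
  · apply ha
    simp only [Set.mem_iUnion]
    exact ⟨⟨i, hi⟩, j, hmem⟩

/-- powers of an exchange map along the horizontal flow -/
theorem pow_exchange {Y : Set ℍ} {a b : ℝ} (χ : Equiv.Perm Y)
    (hχ : ∀ z : Y, IsStep false a b (z : ℍ) (χ z : ℍ)) (n : ℕ) (hn : 0 < n) (z : Y) :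
    ∃ i j : ℕ, (i ≠ 0 ∨ j ≠ 0) ∧ (((χ ^ n) z : Y) : ℍ).re = (z : ℍ).re + (i * a - j * b) := by
  have hone : ∀ z : Y, ∃ i j : ℕ, (i ≠ 0 ∨ j ≠ 0) ∧
      ((χ z : Y) : ℍ).re = (z : ℍ).re + (i * a - j * b) := by
    intro z
    rcases hχ z with h | h | h
    · exact ⟨1, 0, by simp, by rw [h, re_tau_false]; push_cast; ring⟩
    · exact ⟨0, 1, by simp, by rw [h, re_tau_false]; push_cast; ring⟩
    · exact ⟨1, 1, by simp, by rw [h, re_tau_false]; push_cast; ring⟩
  induction n with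
  | zero => exact absurd hn (lt_irrefl _)
  | succ n ih =>
    rcases Nat.eq_zero_or_pos n with h0 | hpos
    · subst h0
      simpa using hone z
    · obtain ⟨i, j, hij, h⟩ := ih hpos
      obtain ⟨i', j', hij', h'⟩ := hone ((χ ^ n) z)
      refine ⟨i + i', j + j', by omega, ?_⟩
      rw [pow_succ', Equiv.Perm.mul_apply, h', h]
      push_cast
      ring

/-- There is a bounded set with nonempty interior in the hyperbolic plane carrying two independent
piecewise isometries which generate a group acting without nontrivial fixed points. -/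
theorem result : ∃ X : Set ℍ, Bornology.IsBounded X ∧ (interior X).Nonempty ∧
    ∃ φ ψ : Equiv.Perm X, IsPiecewiseIsometry φ ∧ IsPiecewiseIsometry ψ ∧
      Independent φ ψ ∧ NoFixedPoints (Subgroup.closure {φ, ψ}) := by
  classical
  -- a transcendental number close to one
  obtain ⟨θ, hθ, hθ1, hθ2⟩ := ((Algebraic.countable ℚ ℝ).dense_compl ℝ).exists_between
    (by norm_num : (1 : ℝ) < 21 / 20)
  have htr : Transcendental ℚ θ := hθ
  set a : ℝ := θ / 4 with ha
  set b : ℝ := θ ^ 2 / 4 with hb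
  have hadm_a : Adm a := ⟨by rw [ha]; linarith, by rw [ha]; linarith⟩
  have hadm_b : Adm b := ⟨by rw [hb]; nlinarith, by rw [hb]; nlinarith⟩
  -- the exceptional set and the set on which the group acts freely
  let D : Set ℍ := Dset a b
  let Y : Set ℍ := X0 \ D
  have hYX : Y ⊆ X0 := Set.sdiff_subset
  have hinv : ∀ k s, (s = a ∨ s = b ∨ s = -a ∨ s = -b ∨ s = a - b ∨ s = b - a) →
      ∀ z ∈ Y, tau k s • z ∈ X0 → tau k s • z ∈ Y := by
    intro k s hs z hz h
    exact ⟨h, fun hD => hz.2 (Dset_inv a b (tau_mem_range a b k hs) hD)⟩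
  have hex : ∀ i : Fin 2, ∃ e : Equiv.Perm Y, ∀ z : Y, IsStep (kb i) a b (z : ℍ) (e z : ℍ) :=
    fun i => exists_exchange hadm_a hadm_b (kb i) Y hYX (hinv (kb i))
  choose e he using hex
  -- absorbing the exceptional set
  have hDc : D.Countable := countable_Dset a b
  have hΔ : (Set.image2 (fun z w : ℍ => w.re - z.re) D D).Countable := hDc.image2 hDc _
  obtain ⟨a', b', ha', hb', hgen⟩ := exists_generic _ hΔ
  obtain ⟨χ, hχ⟩ := exists_exchange ha' hb' false X0 subset_rfl (fun s _ z _ h => h)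
  obtain ⟨θ₀, hθ₀⟩ := absorb {z : X0 | (z : ℍ) ∈ D} χ (by
    intro n hn d hd hd'
    obtain ⟨i, j, hij, h⟩ := pow_exchange χ hχ n hn d
    refine hgen i j hij ⟨(d : ℍ), hd, (((χ ^ n) d : X0) : ℍ), hd', ?_⟩
    change (((χ ^ n) d : X0) : ℍ).re - (d : ℍ).re = _
    rw [h]; ring)
  let T : X0 ≃ Y := θ₀.trans
    { toFun := fun z => ⟨(z : X0), z.1.2, z.2⟩
      invFun := fun z => ⟨⟨(z : ℍ), z.2.1⟩, z.2.2⟩
      left_inv := fun z => rfl
      right_inv := fun z => rfl }
  have hT : FinIso T := by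
    refine ⟨{IsometryEquiv.refl ℍ, IsometryEquiv.constSMul (tau false a'),
      IsometryEquiv.constSMul (tau false (-b')), IsometryEquiv.constSMul (tau false (a' - b'))},
      by simp, fun x => ?_⟩
    have hx : ((T x : Y) : ℍ) = ((θ₀ x : X0) : ℍ) := rfl
    rcases hθ₀ x with h | h
    · exact ⟨IsometryEquiv.refl ℍ, Or.inl rfl, by rw [hx, h]; rfl⟩
    · rcases hχ x with h' | h' | h'
      · exact ⟨_, Or.inr (Or.inl rfl), by rw [hx, h, h']; rfl⟩
      · exact ⟨_, Or.inr (Or.inr (Or.inl rfl)), by rw [hx, h, h']; rfl⟩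
      · exact ⟨_, Or.inr (Or.inr (Or.inr rfl)), by rw [hx, h, h']; rfl⟩
  -- the two piecewise isometries
  let E : Fin 2 → Equiv.Perm X0 := fun i => T.symm.permCongrHom (e i)
  have hE : ∀ i, FinIso (E i) := by
    intro i
    have h1 : FinIso (e i) := finIso_of_step (e i) (he i)
    exact (hT.symm.comp (h1.comp hT))
  have hlift : (FreeGroup.lift ![E 0, E 1] : FreeGroup (Fin 2) →* Equiv.Perm X0) =
      (T.symm.permCongrHom.toMonoidHom).comp (FreeGroup.lift e) := by
    ext i : 1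
    fin_cases i <;> simp [E]
  -- the action on `Y` is free
  have hfreeY : ∀ w : FreeGroup (Fin 2), w ≠ 1 → ∀ y : Y, FreeGroup.lift e w y ≠ y := by
    intro w hw y hy
    have hne' : w.toWord ≠ [] := by rwa [ne_eq, FreeGroup.toWord_eq_nil_iff]
    obtain ⟨l, L, hlL⟩ := List.exists_cons_of_ne_nil hne'
    have hred : FreeGroup.IsReduced (l :: L) := hlL ▸ FreeGroup.isReduced_toWord
    obtain ⟨M, hM, hMy, hinv'⟩ := word_inv e he l L hred y
    have h1 : FreeGroup.lift e w = ((l :: L).map fun x => cond x.2 (e x.1) (e x.1)⁻¹).prod := by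
      conv_lhs => rw [← FreeGroup.mk_toWord (x := w), hlL]
      exact FreeGroup.lift_mk
    rw [← h1, hy] at hMy
    obtain ⟨n1, n2⟩ := Inv_ne htr hinv'
    exact y.2.2 ⟨M, hM, n1, n2, hMy.symm⟩
  have hfree : ∀ w : FreeGroup (Fin 2), (∃ x : X0, FreeGroup.lift ![E 0, E 1] w x = x) → w = 1 := by
    rintro w ⟨x, hx⟩
    by_contra hw
    rw [hlift] at hx
    have hx' : T.symm (FreeGroup.lift e w (T x)) = x := hx
    exact hfreeY w hw (T x) ((Equiv.symm_apply_eq T).1 hx')
  obtain ⟨x₀, hx₀⟩ := interior_X0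
  refine ⟨X0, bounded_X0, interior_X0, E 0, E 1, .of_finIso (hE 0), .of_finIso (hE 1), ?_, ?_⟩
  · unfold Independent
    rw [injective_iff_map_eq_one]
    intro w hw
    exact hfree w ⟨⟨x₀, interior_subset hx₀⟩, by rw [hw]; rfl⟩
  · intro g hg hx
    have hrange : Subgroup.closure {E 0, E 1} =
        (FreeGroup.lift ![E 0, E 1] : FreeGroup (Fin 2) →* Equiv.Perm X0).range := by
      rw [FreeGroup.range_lift_eq_closure, Matrix.range_cons, Matrix.range_cons,
        Matrix.range_empty, Set.union_empty, Set.singleton_union]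
    rw [hrange] at hg
    obtain ⟨w, rfl⟩ := hg
    rw [hfree w hx, map_one]

end Pool.Agent.Results.MP_e721cf_gt.FixedPointFree
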